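import Mathlib

/-!
Elementary part of the smooth part theorem: the primes dividing `a ^ n - b ^ n` are grouped by
`gcd n (p - 1)`; each group is bounded in two ways.
-/

namespace Pool.Agent.P.MP_9ec3f0_nt.Smooth

open Finset

theorem divisor_pow (k : ℕ) : ∃ C : ℕ, ∀ n : ℕ, n ≠ 0 → (#n.divisors) ^ k ≤ C * n := by
  obtain ⟨C0, hC0⟩ : ∃ C0 : ℕ, ∀ e : ℕ, (e + 1) ^ k ≤ C0 * 2 ^ e := by
    have h := (tendsto_pow_const_div_const_pow_of_one_lt k (r := 2) (by norm_num)).bddAbove_range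
    obtain ⟨B, hB⟩ := h
    obtain ⟨C, hC⟩ := exists_nat_ge B
    refine ⟨C * 2, fun e => ?_⟩
    have h1 : (((e + 1 : ℕ) : ℝ)) ^ k / 2 ^ (e + 1) ≤ C := (hB ⟨e + 1, rfl⟩).trans hC
    rw [div_le_iff₀ (by positivity), pow_succ] at h1
    have h2 : (((e + 1 : ℕ) : ℝ)) ^ k ≤ C * 2 * 2 ^ e := by linarith
    exact_mod_cast h2
  have hC1 : 1 ≤ C0 := by simpa using hC0 0
  refine ⟨C0 ^ (2 ^ k), fun n hn => ?_⟩
  rw [Nat.card_divisors hn, ← Finset.prod_pow]
  calc ∏ p ∈ n.primeFactors, (n.factorization p + 1) ^ k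
      ≤ ∏ p ∈ n.primeFactors, ((if p < 2 ^ k then C0 else 1) * p ^ n.factorization p) := by
        refine Finset.prod_le_prod' fun p hp => ?_
        have hp2 := (Nat.prime_of_mem_primeFactors hp).two_le
        split_ifs with h
        · exact (hC0 _).trans (by gcongr)
        · rw [one_mul]
          calc (n.factorization p + 1) ^ k ≤ (2 ^ n.factorization p) ^ k := by
                gcongr; exact Nat.lt_two_pow_self
            _ = (2 ^ k) ^ n.factorization p := by rw [← pow_mul, ← pow_mul, mul_comm]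
            _ ≤ _ := by gcongr; omega
    _ = (∏ p ∈ n.primeFactors, if p < 2 ^ k then C0 else 1) * n := by
        rw [Finset.prod_mul_distrib]
        congr 1
        exact Nat.prod_factorization_pow_eq_self hn
    _ ≤ _ := by
        gcongr
        rw [← Finset.prod_filter, Finset.prod_const]
        refine Nat.pow_le_pow_right hC1 ?_
        calc _ ≤ #(range (2 ^ k)) :=
              Finset.card_le_card fun p hp => mem_range.2 (mem_filter.1 hp).2
          _ = _ := card_range _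

/-- The divisor bound with a real exponent. -/
theorem divisor_bound {η : ℝ} (hη : 0 < η) : ∃ C : ℝ, 1 ≤ C ∧ ∀ n : ℕ, n ≠ 0 →
    (#n.divisors : ℝ) ≤ C * (n : ℝ) ^ η := by
  obtain ⟨k, hk⟩ := exists_nat_ge (1 / η)
  have hk0 : k ≠ 0 := by
    rintro rfl
    have : 0 < 1 / η := by positivity
    simp at hk; linarith [inv_pos.2 hη]
  obtain ⟨C, hC⟩ := divisor_pow k
  refine ⟨C + 1, by linarith [Nat.cast_nonneg (α := ℝ) C], fun n hn => ?_⟩
  have hn1 : (1 : ℝ) ≤ n := by exact_mod_cast Nat.one_le_iff_ne_zero.2 hn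
  refine le_of_pow_le_pow_left₀ hk0 (by positivity) ?_
  have h1 : ((#n.divisors : ℕ) : ℝ) ^ k ≤ C * n := by exact_mod_cast hC n hn
  refine h1.trans ?_
  rw [mul_pow]
  have h2 : (C : ℝ) ≤ ((C : ℝ) + 1) ^ k :=
    (by linarith : (C : ℝ) ≤ C + 1).trans
      (le_self_pow₀ (by linarith [Nat.cast_nonneg (α := ℝ) C]) hk0)
  have h3 : (n : ℝ) ≤ ((n : ℝ) ^ η) ^ k := by
    rw [← Real.rpow_natCast, ← Real.rpow_mul (by positivity)]
    have : 1 ≤ η * k := by
      rw [div_le_iff₀ hη] at hk; linarith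
    simpa using Real.rpow_le_rpow_of_exponent_le hn1 this
  gcongr

/-- The primes of a set contribute at most `log m` to the factorisation of `m`. -/
theorem sum_val_le (F : Finset ℕ) (hF : ∀ p ∈ F, p.Prime) (m : ℕ) :
    ∑ p ∈ F, (padicValNat p m : ℝ) * Real.log p ≤ Real.log m := by
  rw [Real.log_nat_eq_sum_factorization m, Finsupp.sum]
  calc ∑ p ∈ F, (padicValNat p m : ℝ) * Real.log p
      = ∑ p ∈ F, (m.factorization p : ℝ) * Real.log p :=
        Finset.sum_congr rfl fun p hp => by rw [Nat.factorization_def m (hF p hp)]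
    _ = ∑ p ∈ F ∩ m.factorization.support, (m.factorization p : ℝ) * Real.log p := by
        refine (Finset.sum_subset Finset.inter_subset_left fun p hp hq => ?_).symm
        have : m.factorization p = 0 := by
          by_contra h
          exact hq (Finset.mem_inter.2 ⟨hp, Finsupp.mem_support_iff.2 h⟩)
        simp [this]
    _ ≤ _ := Finset.sum_le_sum_of_subset_of_nonneg Finset.inter_subset_right fun p _ _ =>
        mul_nonneg (Nat.cast_nonneg _) (Real.log_natCast_nonneg p)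

theorem val_eq {p : ℕ} (hp : p.Prime) {x : ℤ} (hx : x ≠ 0) :
    emultiplicity (p : ℤ) x = padicValInt p x := by
  have := Fact.mk hp
  rw [padicValInt, padicValNat_eq_emultiplicity (Int.natAbs_ne_zero.2 hx),
    ← Int.natCast_emultiplicity, Int.natCast_natAbs]
  rcases abs_choice x with h | h <;> rw [h]
  exact (emultiplicity_neg _ _).symm

theorem pow_ne {a b : ℤ} (hab : |b| < |a|) {n : ℕ} (hn : n ≠ 0) : a ^ n - b ^ n ≠ 0 := by
  intro h
  have h1 : |a| ^ n = |b| ^ n := by rw [← abs_pow, ← abs_pow, sub_eq_zero.1 h]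
  exact absurd h1 (pow_lt_pow_left₀ hab (abs_nonneg b) hn).ne'

theorem not_dvd_left {a b : ℤ} (hc : IsCoprime a b) {n : ℕ} (hn : n ≠ 0) {p : ℕ} (hp : p.Prime)
    (hd : (p : ℤ) ∣ a ^ n - b ^ n) : ¬ (p : ℤ) ∣ a := by
  intro h
  have hP : Prime (p : ℤ) := Nat.prime_iff_prime_int.1 hp
  have h1 : (p : ℤ) ∣ a ^ n := dvd_pow h hn
  have h2 : (p : ℤ) ∣ b ^ n := by simpa using dvd_sub h1 hd
  exact hP.not_isUnit (hc.isUnit_of_dvd' h (hP.dvd_of_dvd_pow h2))

theorem not_dvd_right {a b : ℤ} (hc : IsCoprime a b) {n : ℕ} (hn : n ≠ 0) {p : ℕ} (hp : p.Prime)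
    (hd : (p : ℤ) ∣ a ^ n - b ^ n) : ¬ (p : ℤ) ∣ b :=
  not_dvd_left hc.symm hn hp (by rw [← neg_sub]; exact hd.neg_right)

/-- A prime dividing `a ^ n - b ^ n` already divides `a ^ d - b ^ d`, `d = gcd n (p - 1)`. -/
theorem dvd_gcd_pow {a b : ℤ} (hc : IsCoprime a b) {n : ℕ} (hn : n ≠ 0) {p : ℕ} (hp : p.Prime)
    (hd : (p : ℤ) ∣ a ^ n - b ^ n) :
    (p : ℤ) ∣ a ^ (Nat.gcd n (p - 1)) - b ^ (Nat.gcd n (p - 1)) := by
  have := Fact.mk hp
  have ha : (a : ZMod p) ≠ 0 := by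
    rw [Ne, ZMod.intCast_zmod_eq_zero_iff_dvd]; exact not_dvd_left hc hn hp hd
  have hb : (b : ZMod p) ≠ 0 := by
    rw [Ne, ZMod.intCast_zmod_eq_zero_iff_dvd]; exact not_dvd_right hc hn hp hd
  rw [← ZMod.intCast_zmod_eq_zero_iff_dvd] at hd ⊢
  push_cast at hd ⊢
  have h1 : ((a : ZMod p) / b) ^ n = 1 := by
    rw [div_pow, sub_eq_zero.1 hd, div_self (pow_ne_zero _ hb)]
  have h2 : ((a : ZMod p) / b) ^ (p - 1) = 1 := ZMod.pow_card_sub_one_eq_one (div_ne_zero ha hb)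
  have h3 := pow_gcd_eq_one.2 ⟨h1, h2⟩
  rw [div_pow, div_eq_one_iff_eq (pow_ne_zero _ hb)] at h3
  rw [h3, sub_self]

/-- Lifting the exponent for odd primes. -/
theorem val_odd {a b : ℤ} (hc : IsCoprime a b) (hab : |b| < |a|) {n d : ℕ} (hn : n ≠ 0)
    (hdn : d ∣ n) {p : ℕ} (hp : p.Prime) (hp2 : p ≠ 2) (hd : (p : ℤ) ∣ a ^ d - b ^ d) :
    padicValInt p (a ^ n - b ^ n) ≤ padicValInt p (a ^ d - b ^ d) + padicValNat p n := by
  have := Fact.mk hp
  obtain ⟨e, rfl⟩ := hdn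
  have hd0 : d ≠ 0 := left_ne_zero_of_mul hn
  have he0 : e ≠ 0 := right_ne_zero_of_mul hn
  have hx : ¬ (p : ℤ) ∣ a ^ d := fun h =>
    not_dvd_left hc hd0 hp hd ((Nat.prime_iff_prime_int.1 hp).dvd_of_dvd_pow h)
  have h := Int.emultiplicity_pow_sub_pow hp (hp.odd_of_ne_two hp2) hd hx e
  rw [← pow_mul, ← pow_mul, val_eq hp (pow_ne hab hn), val_eq hp (pow_ne hab hd0),
    ← padicValNat_eq_emultiplicity he0] at h
  have h2 : padicValInt p (a ^ (d * e) - b ^ (d * e)) =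
      padicValInt p (a ^ d - b ^ d) + padicValNat p e := by exact_mod_cast h
  rw [h2, padicValNat.mul hd0 he0]
  omega

/-- Lifting the exponent for the prime two. -/
theorem val_two {a b : ℤ} (hc : IsCoprime a b) (hab : |b| < |a|) {n : ℕ} (hn : n ≠ 0)
    (hd : ((2 : ℕ) : ℤ) ∣ a ^ n - b ^ n) :
    padicValInt 2 (a ^ n - b ^ n) ≤ padicValInt 2 (a ^ 2 - b ^ 2) + padicValNat 2 n := by
  have ha : ¬ (2 : ℤ) ∣ a := not_dvd_left hc hn Nat.prime_two hd
  have hb : ¬ (2 : ℤ) ∣ b := not_dvd_right hc hn Nat.prime_two hd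
  have h4 : (4 : ℤ) ∣ a ^ 2 - b ^ 2 := by
    obtain ⟨s, rfl⟩ : Odd a := by rwa [← Int.not_even_iff_odd, even_iff_two_dvd]
    obtain ⟨t, rfl⟩ : Odd b := by rwa [← Int.not_even_iff_odd, even_iff_two_dvd]
    exact ⟨s ^ 2 + s - t ^ 2 - t, by ring⟩
  have hx : ¬ (2 : ℤ) ∣ a ^ 2 := fun h => ha (Int.prime_two.dvd_of_dvd_pow h)
  have h := Int.two_pow_sub_pow' n h4 hx
  have h2n : 2 * n ≠ 0 := by omega
  have e1 := val_eq Nat.prime_two (pow_ne hab h2n)
  have e2 := val_eq Nat.prime_two (pow_ne hab (two_ne_zero))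
  have e3 := val_eq Nat.prime_two (x := (n : ℤ)) (by exact_mod_cast hn)
  have e4 := val_eq Nat.prime_two (pow_ne hab hn)
  push_cast at e1 e2 e3 e4
  rw [← pow_mul, ← pow_mul, e1, e2, e3] at h
  have h5 : emultiplicity (2 : ℤ) (a ^ n - b ^ n) ≤
      emultiplicity (2 : ℤ) (a ^ (2 * n) - b ^ (2 * n)) :=
    emultiplicity_le_emultiplicity_of_dvd_right ⟨a ^ n + b ^ n, by ring⟩
  rw [e1, e4, h] at h5
  have h6 : padicValInt 2 (a ^ n - b ^ n) ≤
      padicValInt 2 (a ^ 2 - b ^ 2) + padicValInt 2 (n : ℤ) := by exact_mod_cast h5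
  simpa [padicValInt] using h6

theorem log_sub_le {a b : ℤ} (hb : b ≠ 0) (hab : |b| < |a|) {d : ℕ} (hd : d ≠ 0) :
    Real.log ((a ^ d - b ^ d).natAbs : ℝ) ≤ 2 * d * Real.log |(a : ℝ)| := by
  have ha2 : (2 : ℝ) ≤ |(a : ℝ)| := by
    have : (2 : ℤ) ≤ |a| := by have := abs_pos.2 hb; omega
    exact_mod_cast this
  have h0 : (0 : ℝ) < ((a ^ d - b ^ d).natAbs : ℝ) := by
    exact_mod_cast Int.natAbs_pos.2 (pow_ne hab hd)
  have h1 : ((a ^ d - b ^ d).natAbs : ℝ) ≤ |(a : ℝ)| ^ (2 * d) := by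
    rw [Nat.cast_natAbs]
    push_cast
    have hba : |(b : ℝ)| ≤ |(a : ℝ)| := by exact_mod_cast hab.le
    have h2 : |(b : ℝ)| ^ d ≤ |(a : ℝ)| ^ d := by gcongr
    have h3 : (2 : ℝ) ≤ |(a : ℝ)| ^ d := ha2.trans (le_self_pow₀ (by linarith) hd)
    calc |(a : ℝ) ^ d - (b : ℝ) ^ d| ≤ |(a : ℝ) ^ d| + |(b : ℝ) ^ d| := abs_sub _ _
      _ = |(a : ℝ)| ^ d + |(b : ℝ)| ^ d := by rw [abs_pow, abs_pow]
      _ ≤ 2 * |(a : ℝ)| ^ d := by linarith
      _ ≤ |(a : ℝ)| ^ d * |(a : ℝ)| ^ d := by gcongr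
      _ = _ := by ring
  refine (Real.log_le_log h0 h1).trans ?_
  rw [Real.log_pow]; push_cast; rfl

theorem min_sqrt {T A B e : ℝ} (hA : 0 ≤ A) (hB : 0 ≤ B) (he : 0 ≤ e) (h1 : T ≤ A + e)
    (h2 : T ≤ B) : T ≤ √(A * B) + e := by
  rcases le_total A B with h | h
  · have : A ≤ √(A * B) := Real.le_sqrt_of_sq_le (by nlinarith)
    linarith
  · have : B ≤ √(A * B) := Real.le_sqrt_of_sq_le (by nlinarith)
    linarith

/-- One group of primes. -/
theorem fiber {a b : ℤ} (hb : b ≠ 0) (hab : |b| < |a|) {n d : ℕ} (hd : d ≠ 0)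
    (F : Finset ℕ) (hF : ∀ p ∈ F, p.Prime) {y B : ℝ} (hy : 0 ≤ y) (hB : 0 ≤ B)
    (h1 : ∀ p ∈ F,
      padicValInt p (a ^ n - b ^ n) ≤ padicValInt p (a ^ d - b ^ d) + padicValNat p n)
    (h2 : ∀ p ∈ F, (padicValInt p (a ^ n - b ^ n) : ℝ) * Real.log p ≤ B)
    (h3 : (#F : ℝ) * d ≤ y) :
    ∑ p ∈ F, (padicValInt p (a ^ n - b ^ n) : ℝ) * Real.log p ≤
      √(2 * Real.log |(a : ℝ)| * y * B) + Real.log n := by
  have hd' : (0 : ℝ) < d := by exact_mod_cast Nat.pos_of_ne_zero hd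
  have hH : 0 ≤ Real.log |(a : ℝ)| := by
    rw [Real.log_abs]; exact Real.log_intCast_nonneg a
  have e : 2 * Real.log |(a : ℝ)| * y * B = (2 * d * Real.log |(a : ℝ)|) * (y / d * B) := by
    field_simp
  rw [e]
  refine min_sqrt (by positivity) (by positivity) (Real.log_natCast_nonneg n) ?_ ?_
  · calc ∑ p ∈ F, (padicValInt p (a ^ n - b ^ n) : ℝ) * Real.log p
        ≤ ∑ p ∈ F, ((padicValNat p (a ^ d - b ^ d).natAbs : ℝ) * Real.log p +
            (padicValNat p n : ℝ) * Real.log p) := by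
          refine Finset.sum_le_sum fun p hp => ?_
          rw [← add_mul]
          refine mul_le_mul_of_nonneg_right ?_ (Real.log_natCast_nonneg p)
          exact_mod_cast h1 p hp
      _ ≤ _ := by
          rw [Finset.sum_add_distrib]
          exact add_le_add ((sum_val_le F hF _).trans (log_sub_le hb hab hd)) (sum_val_le F hF n)
  · refine (Finset.sum_le_card_nsmul F _ B h2).trans ?_
    rw [nsmul_eq_mul]
    refine mul_le_mul_of_nonneg_right ?_ hB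
    rw [le_div_iff₀ hd']; exact h3

theorem card_fiber (F : Finset ℕ) {d : ℕ} (hd : d ≠ 0) {y : ℝ} (hy : 0 ≤ y)
    (hF : ∀ p ∈ F, 2 ≤ p ∧ (p : ℝ) ≤ y ∧ d ∣ p - 1) : (#F : ℝ) * d ≤ y := by
  have h1 : #F ≤ #(Icc 1 (⌊y⌋₊ / d)) := by
    refine Finset.card_le_card_of_injOn (fun p => (p - 1) / d) (fun p hp => ?_) ?_
    · obtain ⟨h2, h3, h4⟩ := hF p hp
      have h5 : p ≤ ⌊y⌋₊ := Nat.le_floor h3
      refine mem_coe.2 (mem_Icc.2 ⟨?_, Nat.div_le_div_right (by omega)⟩)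
      exact Nat.div_pos (Nat.le_of_dvd (by omega) h4) (Nat.pos_of_ne_zero hd)
    · intro p hp q hq h
      obtain ⟨h2, -, h4⟩ := hF p hp
      obtain ⟨h5, -, h6⟩ := hF q hq
      have h7 : (p - 1) / d * d = (q - 1) / d * d := by
        have : (p - 1) / d = (q - 1) / d := h
        rw [this]
      rw [Nat.div_mul_cancel h4, Nat.div_mul_cancel h6] at h7
      omega
  rw [Nat.card_Icc, Nat.add_sub_cancel] at h1
  have h2 : #F * d ≤ ⌊y⌋₊ := (Nat.mul_le_mul_right d h1).trans (Nat.div_mul_le_self _ _)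
  have h3 : ((#F * d : ℕ) : ℝ) ≤ ⌊y⌋₊ := by exact_mod_cast h2
  push_cast at h3
  exact h3.trans (Nat.floor_le hy)

/-- All groups together. -/
theorem total {a b : ℤ} (hc : IsCoprime a b) (hb : b ≠ 0) (hab : |b| < |a|) {n : ℕ} (hn : n ≠ 0)
    (P : Finset ℕ) {y B : ℝ} (hy : 0 ≤ y) (hB : 0 ≤ B)
    (hP : ∀ p ∈ P, p.Prime ∧ (p : ℤ) ∣ a ^ n - b ^ n ∧ (p : ℝ) ≤ y)
    (h2 : ∀ p ∈ P, (padicValInt p (a ^ n - b ^ n) : ℝ) * Real.log p ≤ B) :
    ∑ p ∈ P, (padicValInt p (a ^ n - b ^ n) : ℝ) * Real.log p ≤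
      (#n.divisors + 1) * (√(2 * Real.log |(a : ℝ)| * y * B) + Real.log n) := by
  set W := √(2 * Real.log |(a : ℝ)| * y * B) + Real.log n with hW
  rw [← Finset.sum_filter_add_sum_filter_not P (fun p => p ≠ 2), add_mul, one_mul]
  refine add_le_add ?_ ?_
  · rw [← Finset.sum_fiberwise_of_maps_to (t := n.divisors) (g := fun p => Nat.gcd n (p - 1))
      (fun p _ => Nat.mem_divisors.2 ⟨Nat.gcd_dvd_left _ _, hn⟩)]
    refine (Finset.sum_le_card_nsmul _ _ W fun d hd => ?_).trans (by rw [nsmul_eq_mul])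
    have hdn := Nat.dvd_of_mem_divisors hd
    have hd0 : d ≠ 0 := (Nat.pos_of_mem_divisors hd).ne'
    refine fiber hb hab hd0 _ (fun p hp => ?_) hy hB (fun p hp => ?_) (fun p hp => ?_)
      (card_fiber _ hd0 hy fun p hp => ?_)
    all_goals
      obtain ⟨hp1, hp3⟩ := mem_filter.1 hp
      obtain ⟨hp1, hp2⟩ := mem_filter.1 hp1
      obtain ⟨k1, k2, k3⟩ := hP p hp1
    · exact k1
    · exact val_odd hc hab hn hdn k1 hp2 (hp3 ▸ dvd_gcd_pow hc hn k1 k2)
    · exact h2 p hp1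
    · exact ⟨k1.two_le, k3, hp3 ▸ Nat.gcd_dvd_right _ _⟩
  · have key : ∀ p ∈ P.filter (fun p => ¬ p ≠ 2), p = 2 ∧ p ∈ P := fun p hp =>
      ⟨not_not.1 (mem_filter.1 hp).2, (mem_filter.1 hp).1⟩
    refine fiber hb hab two_ne_zero _ (fun p hp => (hP p (key p hp).2).1) hy hB
      (fun p hp => ?_) (fun p hp => h2 p (key p hp).2) ?_
    · obtain ⟨rfl, k⟩ := key p hp
      exact val_two hc hab hn (hP 2 k).2.1
    · rcases (P.filter (fun p => ¬ p ≠ 2)).eq_empty_or_nonempty with h | ⟨p, hp⟩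
      · rw [h]; simpa using hy
      · have h3 : #(P.filter (fun p => ¬ p ≠ 2)) ≤ 1 :=
          Finset.card_le_one.2 fun p hp q hq => (key p hp).1.trans (key q hq).1.symm
        have h4 : (#(P.filter (fun p => ¬ p ≠ 2)) : ℝ) ≤ 1 := by exact_mod_cast h3
        obtain ⟨rfl, k⟩ := key p hp
        have h5 := (hP 2 k).2.2
        push_cast at h5 ⊢
        linarith

end Pool.Agent.P.MP_9ec3f0_nt.Smooth
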