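import Pool.Agent.P.MP_9ec3f0_nt.SY.Abc
import Pool.Agent.P.MP_9ec3f0_nt.Smooth.Fiber

/-!
The smooth part of `a ^ n - b ^ n`.
-/

namespace Pool.Agent.P.MP_9ec3f0_nt.Smooth

open Finset SY.AbcAux

/-- A bound for the contribution of one prime. -/
theorem one_prime : ∃ δ : ℝ, 0 < δ ∧ δ ≤ 1 / 8 ∧ ∀ η : ℝ, 0 < η → η ≤ 1 / 2 → ∃ C : ℝ, 0 < C ∧
    ∀ (a b : ℤ) (n p : ℕ) (g : ℝ), IsCoprime a b → b ≠ 0 → |b| < |a| → n ≠ 0 → p.Prime →
      (p : ℤ) ∣ a ^ n - b ^ n → 1 ≤ g → n * Real.log |(a : ℝ)| ≤ g → (p : ℝ) ≤ g ^ 2 →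
      (padicValInt p (a ^ n - b ^ n) : ℝ) * Real.log p ≤
        C * (∏ l ∈ (a * b).natAbs.primeFactors, (l : ℝ)) * g ^ (2 * η) * (p : ℝ) ^ (1 - δ) := by
  obtain ⟨δ, hδ, hδ1, C, hC, H⟩ := ord_mean
  refine ⟨δ / 8, by positivity, by linarith, fun η hη hη1 => ?_⟩
  obtain ⟨D, hD, hab⟩ := absorb C hη
  refine ⟨C * D * Real.exp (2 * η), by positivity, ?_⟩
  intro a b n p g hc hb hlt hn hp hd hg hh hpg
  have ha : a ≠ 0 := by rintro rfl; simp at hlt; exact absurd hlt (not_lt.2 (abs_nonneg b))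
  have ha2 : (2 : ℤ) ≤ |a| := by have := abs_pos.2 hb; omega
  set Pp := (a * b).natAbs.primeFactors with hPp
  have hP : ∀ l ∈ Pp, l.Prime := fun l hl => Nat.prime_of_mem_primeFactors hl
  have hab0 : (a * b).natAbs ≠ 0 := Int.natAbs_ne_zero.2 (mul_ne_zero ha hb)
  set R := ∏ l ∈ Pp, (l : ℝ) with hR
  have hR1 : 1 ≤ R := one_le_rad hP
  have hsum : ∑ l ∈ Pp, Real.log l = Real.log R := by
    rw [hR, Real.log_prod fun l hl => by exact_mod_cast (hP l hl).ne_zero]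
  have hlR : 0 ≤ Real.log R := Real.log_nonneg hR1
  have hlg : 0 ≤ Real.log g := Real.log_nonneg hg
  obtain ⟨Λ, hΛ⟩ : ∃ Λ, Λ = Real.log R + 2 * Real.log g + 2 := ⟨_, rfl⟩
  have hΛ1 : 1 ≤ Λ := by linarith
  obtain ⟨μ, hμ⟩ : ∃ μ, μ = Λ ^ (1 / 8 : ℝ) := ⟨_, rfl⟩
  have hμ1 : 1 ≤ μ := hμ ▸ Real.one_le_rpow hΛ1 (by norm_num)
  have hμ8 : μ ^ 8 = Λ := by
    rw [hμ, ← Real.rpow_natCast, ← Real.rpow_mul (by linarith)]; norm_num
  have hp0 : (0 : ℝ) < p := by exact_mod_cast hp.pos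
  have hprime : Prime (p : ℤ) := Nat.prime_iff_prime_int.1 hp
  have hexp : ∀ t : ℝ, Real.exp (t * Λ) = R ^ t * g ^ (2 * t) * Real.exp (2 * t) := by
    intro t
    rw [Real.rpow_def_of_pos (by linarith), Real.rpow_def_of_pos (by linarith), ← Real.exp_add,
      ← Real.exp_add, hΛ]
    congr 1; ring
  have k := H p Pp (a ^ n) (b ^ n) μ hp hP
    (fun h => by
      have h1 : (p : ℤ) ∣ a * b := Int.natCast_dvd.2 (Nat.dvd_of_mem_primeFactors h)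
      exact (hprime.dvd_or_dvd h1).elim (not_dvd_left hc hn hp hd) (not_dvd_right hc hn hp hd))
    (by
      rw [hPp, Nat.nonempty_primeFactors, Int.natAbs_mul]
      have h1 : 2 ≤ a.natAbs := by
        rw [← Int.natCast_natAbs] at ha2; exact_mod_cast ha2
      have h2 : 1 ≤ b.natAbs := Int.natAbs_pos.2 hb
      nlinarith only [h1, h2])
    (pow_ne_zero _ ha) (pow_ne_zero _ hb) (sub_ne_zero.1 (pow_ne hlt hn))
    (fun l hl h => by
      rw [← mul_pow] at h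
      exact Nat.mem_primeFactors.2 ⟨hl, Int.natCast_dvd.1
        ((Nat.prime_iff_prime_int.1 hl).dvd_of_dvd_pow h), hab0⟩)
    hμ1
    (by
      rw [hμ8]
      have := Real.log_le_log hp0 hpg
      rw [Real.log_pow] at this
      push_cast at this
      linarith)
    (by rw [hμ8, hsum]; linarith)
    (by
      rw [hμ8]
      have h1 : (2 : ℝ) ≤ |(a : ℝ)| := by exact_mod_cast ha2
      have h2 : |(b : ℝ)| ≤ |(a : ℝ)| := by exact_mod_cast hlt.le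
      have h3 : |((a ^ n : ℤ) : ℝ)| + |((b ^ n : ℤ) : ℝ)| ≤ 2 * |(a : ℝ)| ^ n := by
        push_cast
        rw [abs_pow, abs_pow]
        have : |(b : ℝ)| ^ n ≤ |(a : ℝ)| ^ n := by gcongr
        linarith
      have h4 : (0 : ℝ) < |((a ^ n : ℤ) : ℝ)| + |((b ^ n : ℤ) : ℝ)| := by
        have : (0 : ℝ) < |((a ^ n : ℤ) : ℝ)| := by
          push_cast; rw [abs_pow]; positivity
        positivity
      refine (Real.log_le_log h4 h3).trans ?_
      rw [Real.log_mul (by norm_num) (by positivity), Real.log_pow]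
      have h5 := hexp 1
      rw [one_mul, Real.rpow_one, mul_one, Real.rpow_two] at h5
      have h6 : Real.log 2 ≤ 1 := by linarith [Real.log_two_lt_d9]
      have h7 : (2 : ℝ) ≤ Real.exp 2 := by linarith [Real.add_one_le_exp 2]
      have h8 : g ≤ R * g ^ 2 := by nlinarith only [hg, hR1, mul_nonneg (sub_nonneg.2 hR1) (sq_nonneg g)]
      rw [h5]
      nlinarith only [h6, h7, h8, hh, hg])
  refine k.trans ?_
  have h1 := prod_log_le Pp (fun l hl => (hP l hl).one_le) (A := C * μ) (θ := 1 / 2)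
    (by positivity) (by norm_num)
  have h2 := hab μ
  rw [hμ8] at h2 ⊢
  rw [hexp] at h2
  have h3 : Λ ^ 30 ≤ Λ ^ 34 := pow_le_pow_right₀ hΛ1 (by norm_num)
  have h4 : R ^ (1 / 2 : ℝ) * R ^ η ≤ R := by
    rw [← Real.rpow_add (by linarith)]
    simpa using Real.rpow_le_rpow_of_exponent_le hR1 (show 1 / 2 + η ≤ 1 by linarith)
  calc C * Λ ^ 30 * (p : ℝ) ^ (1 - δ / 8) * ∏ l ∈ Pp, (C * μ * Real.log l)
      ≤ C * Λ ^ 34 * (p : ℝ) ^ (1 - δ / 8) *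
          (R ^ (1 / 2 : ℝ) * Real.exp ((24 * (C * μ)) ^ 4)) := by
        refine mul_le_mul (by gcongr) h1 (Finset.prod_nonneg fun l _ =>
          mul_nonneg (by positivity) (Real.log_natCast_nonneg l)) (by positivity)
    _ = C * (p : ℝ) ^ (1 - δ / 8) * R ^ (1 / 2 : ℝ) *
          (Λ ^ 34 * Real.exp ((24 * (C * μ)) ^ 4)) := by ring
    _ ≤ C * (p : ℝ) ^ (1 - δ / 8) * R ^ (1 / 2 : ℝ) *
          (D * (R ^ η * g ^ (2 * η) * Real.exp (2 * η))) := by gcongr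
    _ = C * D * Real.exp (2 * η) * (R ^ (1 / 2 : ℝ) * R ^ η) * g ^ (2 * η) *
          (p : ℝ) ^ (1 - δ / 8) := by ring
    _ ≤ _ := by gcongr

theorem smooth_part : ∃ δ : ℝ, 0 < δ ∧ ∃ C : ℝ, ∀ (a b : ℤ) (n : ℕ) (h : ℝ),
    IsCoprime a b → b ≠ 0 → |b| < |a| → 0 < n → h = n * Real.log |(a : ℝ)| →
    ∑ p ∈ (a ^ n - b ^ n).natAbs.primeFactors.filter
        (fun p : ℕ => (p : ℝ) ≤ (n * h) ^ (1 / 2 + δ)), (padicValInt p (a ^ n - b ^ n) : ℝ) * Real.log p ≤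
      C * √((∏ l ∈ (a * b).natAbs.primeFactors, l : ℕ) : ℝ) * h ^ (1 - δ) := by
  obtain ⟨δ₁, hδ₁, hδ₁', H⟩ := one_prime
  obtain ⟨δ, hδ⟩ : ∃ δ, δ = δ₁ / 16 := ⟨_, rfl⟩
  have hδ0 : 0 < δ := by rw [hδ]; positivity
  obtain ⟨C, hC, H⟩ := H δ hδ0 (by linarith)
  obtain ⟨E, hE, hτ⟩ := divisor_bound hδ0
  refine ⟨δ, hδ0, 2 * E * (√(2 * C) + 1 / δ) * 2, ?_⟩
  intro a b n h hc hb hlt hn hh
  have ha2 : (2 : ℝ) ≤ |(a : ℝ)| := by
    have : (2 : ℤ) ≤ |a| := by have := abs_pos.2 hb; omega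
    exact_mod_cast this
  set L := Real.log |(a : ℝ)| with hL
  have hL2 : 1 / 2 ≤ L := by
    have := Real.log_le_log (by norm_num) ha2
    linarith [Real.log_two_gt_d9]
  have hn1 : (1 : ℝ) ≤ n := by exact_mod_cast hn
  have hh0 : 0 < h := by rw [hh]; positivity
  obtain ⟨g, hg⟩ : ∃ g, g = 2 * h := ⟨_, rfl⟩
  have hng : (n : ℝ) ≤ g := by rw [hg, hh]; nlinarith only [hn1, hL2]
  have hg1 : 1 ≤ g := hn1.trans hng
  have hhg : h ≤ g := by linarith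
  set y := (n * h) ^ (1 / 2 + δ) with hy
  have hy0 : 0 < y := by positivity
  have hyg : y ≤ g ^ 2 := by
    calc y ≤ (g ^ 2) ^ (1 / 2 + δ) := by
          refine Real.rpow_le_rpow (by positivity) (by nlinarith only [hng, hhg, hn1, hh0]) (by positivity)
      _ ≤ (g ^ 2) ^ (1 : ℝ) :=
          Real.rpow_le_rpow_of_exponent_le (one_le_pow₀ hg1) (by linarith)
      _ = _ := Real.rpow_one _
  rw [Nat.cast_prod]
  set R := ∏ l ∈ (a * b).natAbs.primeFactors, (l : ℝ) with hR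
  have hR1 : 1 ≤ R := one_le_rad fun l hl => Nat.prime_of_mem_primeFactors hl
  have hsR : 1 ≤ √R := Real.one_le_sqrt.2 hR1
  obtain ⟨B, hB⟩ : ∃ B, B = C * R * g ^ (2 * δ) * y ^ (1 - δ₁) := ⟨_, rfl⟩
  have hmem : ∀ p ∈ (a ^ n - b ^ n).natAbs.primeFactors.filter (fun p : ℕ => (p : ℝ) ≤ y),
      p.Prime ∧ (p : ℤ) ∣ a ^ n - b ^ n ∧ (p : ℝ) ≤ y := fun p hp =>
    ⟨Nat.prime_of_mem_primeFactors (mem_filter.1 hp).1,
      Int.natCast_dvd.2 (Nat.dvd_of_mem_primeFactors (mem_filter.1 hp).1), (mem_filter.1 hp).2⟩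
  have k := total hc hb hlt hn.ne' _ hy0.le (B := B) (by rw [hB]; positivity) hmem fun p hp => by
    obtain ⟨k1, k2, k3⟩ := hmem p hp
    refine (H a b n p g hc hb hlt hn.ne' k1 k2 hg1 (hh ▸ hhg) (k3.trans hyg)).trans ?_
    rw [hB]
    gcongr
    linarith
  refine k.trans ?_
  -- the main term
  have e1 : L * (y * y ^ (1 - δ₁)) ≤ g ^ (2 - 6 * δ) := by
    obtain ⟨κ, hκ⟩ : ∃ κ, κ = δ₁ / 2 - 2 * δ + δ * δ₁ := ⟨_, rfl⟩
    have hκ0 : 6 * δ ≤ κ := by rw [hκ, hδ]; nlinarith only [hδ₁, hδ₁']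
    have hκ1 : κ ≤ 1 := by rw [hκ, hδ]; nlinarith only [hδ₁, hδ₁']
    have h1 : y * y ^ (1 - δ₁) = (n : ℝ) ^ (1 - κ) * h ^ (1 - κ) := by
      rw [← Real.rpow_one_add' hy0.le (by linarith), hy, ← Real.rpow_mul (by positivity),
        ← Real.mul_rpow (by positivity) hh0.le]
      congr 1; rw [hκ]; ring
    have h2 : (n : ℝ) ^ (1 - κ) ≤ n := by
      simpa using Real.rpow_le_rpow_of_exponent_le hn1 (show 1 - κ ≤ 1 by linarith)
    have h3 : h ^ (1 - κ) ≤ g ^ (1 - 6 * δ) :=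
      (Real.rpow_le_rpow hh0.le hhg (by linarith)).trans
        (Real.rpow_le_rpow_of_exponent_le hg1 (by linarith))
    rw [h1]
    calc L * ((n : ℝ) ^ (1 - κ) * h ^ (1 - κ)) ≤ L * (n * g ^ (1 - 6 * δ)) := by gcongr
      _ = h * g ^ (1 - 6 * δ) := by rw [hh]; ring
      _ ≤ g * g ^ (1 - 6 * δ) := by gcongr
      _ = _ := by
        rw [← Real.rpow_one_add' (by linarith) (by linarith)]; congr 1; ring
  have e2 : √(2 * L * y * B) ≤ √(2 * C) * √R * g ^ (1 - 2 * δ) := by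
    have h1 : g ^ (1 - 2 * δ) = √(g ^ (2 * δ) * g ^ (2 - 6 * δ)) := by
      rw [← Real.rpow_add (by linarith), Real.sqrt_eq_rpow, ← Real.rpow_mul (by linarith)]
      congr 1; ring
    rw [h1, ← Real.sqrt_mul (by positivity), ← Real.sqrt_mul (by positivity)]
    refine Real.sqrt_le_sqrt ?_
    calc 2 * L * y * B = 2 * C * R * (g ^ (2 * δ) * (L * (y * y ^ (1 - δ₁)))) := by
          rw [hB]; ring
      _ ≤ _ := by gcongr
  have e3 : Real.log n ≤ 1 / δ * √R * g ^ (1 - 2 * δ) := by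
    have h1 := Real.log_le_rpow_div (x := (n : ℝ)) (by linarith) hδ0
    have h2 : (n : ℝ) ^ δ ≤ g ^ (1 - 2 * δ) :=
      (Real.rpow_le_rpow (by linarith) hng hδ0.le).trans
        (Real.rpow_le_rpow_of_exponent_le hg1 (by linarith))
    calc Real.log n ≤ 1 / δ * 1 * (n : ℝ) ^ δ := by rw [mul_one, one_div, ← div_eq_inv_mul]; exact h1
      _ ≤ _ := by gcongr
  have e4 : (#n.divisors : ℝ) + 1 ≤ 2 * E * g ^ δ := by
    have h1 := hτ n hn.ne'
    have h2 : (n : ℝ) ^ δ ≤ g ^ δ := Real.rpow_le_rpow (by linarith) hng hδ0.le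
    have h3 : 1 ≤ g ^ δ := Real.one_le_rpow hg1 hδ0.le
    nlinarith only [h1, h2, h3, hE]
  have e5 : g ^ δ * g ^ (1 - 2 * δ) ≤ 2 * h ^ (1 - δ) := by
    rw [← Real.rpow_add (by linarith), show δ + (1 - 2 * δ) = 1 - δ by ring, hg,
      Real.mul_rpow (by norm_num) hh0.le]
    have : (2 : ℝ) ^ (1 - δ) ≤ 2 := by
      simpa using Real.rpow_le_rpow_of_exponent_le (x := 2) (by norm_num)
        (show 1 - δ ≤ 1 by linarith)
    gcongr
  calc ((#n.divisors : ℝ) + 1) * (√(2 * L * y * B) + Real.log n)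
      ≤ (2 * E * g ^ δ) * (√(2 * C) * √R * g ^ (1 - 2 * δ) + 1 / δ * √R * g ^ (1 - 2 * δ)) :=
        mul_le_mul e4 (add_le_add e2 e3)
          (add_nonneg (Real.sqrt_nonneg _) (Real.log_natCast_nonneg n)) (by positivity)
    _ = 2 * E * (√(2 * C) + 1 / δ) * √R * (g ^ δ * g ^ (1 - 2 * δ)) := by ring
    _ ≤ 2 * E * (√(2 * C) + 1 / δ) * √R * (2 * h ^ (1 - δ)) := by gcongr
    _ = _ := by ring

end Pool.Agent.P.MP_9ec3f0_nt.Smooth
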